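import Mathlib

/-!
# Degree functions on algebras
-/

namespace Pool.Agent.N506.EX

universe u v

open Filter

/-- The span of the elements of degree at most `r`. -/
def degSpan (k : Type u) {R : Type v} [Field k] [Ring R] [Algebra k R] (deg : R → ℕ) (r : ℕ) :
    Submodule k R := Submodule.span k {a | deg a ≤ r}

/-- Degree functions `deg` on a `k`-algebra `R` (with values in `ℕ`, defined for nonzero elements;
the value at `0` plays no role): `R` has no zero divisors, `deg (a b) = deg a + deg b`,
`deg (a + b) ≤ max (deg a) (deg b)`, the elements of degree at most `r` span a finite-dimensional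
`k`-subspace, for all `r`, and the growth of its dimension is subexponential: for all `ε > 0` it is
at most `exp (ε r)` for all large `r`. -/
structure IsDegree (k : Type u) {R : Type v} [Field k] [Ring R] [Algebra k R] (deg : R → ℕ) :
    Prop where
  mul : ∀ a b : R, a ≠ 0 → b ≠ 0 → a * b ≠ 0 ∧ deg (a * b) = deg a + deg b
  add : ∀ a b : R, a ≠ 0 → b ≠ 0 → a + b ≠ 0 → deg (a + b) ≤ max (deg a) (deg b)
  fin : ∀ r, Module.Finite k (degSpan k deg r)
  growth : ∀ ε : ℝ, 0 < ε → ∀ᶠ r : ℕ in atTop,
    (Module.finrank k (degSpan k deg r) : ℝ) ≤ Real.exp (ε * r)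

/-- The `k`-algebra `R` has a `k`-basis for which the coordinates of `1` and of all products of two
basis elements lie in a finitely generated subring of `k`. -/
def FGConstants (k R : Type u) [Field k] [Ring R] [Algebra k R] : Prop :=
  ∃ (ι : Type u) (b : Module.Basis ι k R) (C : Finset k),
    (∀ l, b.repr 1 l ∈ Subring.closure (C : Set k)) ∧
    ∀ i j l, b.repr (b i * b j) l ∈ Subring.closure (C : Set k)

end Pool.Agent.N506.EX
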