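import Pool.Agent.N506.FR.LO

/-!
# The discrete valuation of a degree function
-/

namespace Pool.Agent.N506.EX

universe u v

section Frac

variable {R : Type u} [Ring R] [NoZeroDivisors R] (hLO : LO R) {E : Type v} [DivisionRing E]
  (j : R →+* E) (hj : Function.Injective j) (hfrac : ∀ a : E, ∃ s r : R, s ≠ 0 ∧ j s * a = j r)
  (w : R → ℤ) (hmul : ∀ a b, a ≠ 0 → b ≠ 0 → w (a * b) = w a + w b)
  (hadd : ∀ a b, a ≠ 0 → b ≠ 0 → a + b ≠ 0 → min (w a) (w b) ≤ w (a + b))

/-- The discrete valuation of the division ring of fractions of an Ore domain, with a uniformizer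
in the division ring. -/
noncomputable def DV.ofOre' (s₀ r₀ : R) (hs₀ : s₀ ≠ 0) (hr₀ : r₀ ≠ 0) (hwt : w r₀ = w s₀ + 1) :
    DV E where
  v := vfrac j hfrac w
  map_mul := by
    intro a b ha hb
    have hjne : ∀ x : R, x ≠ 0 → j x ≠ 0 := fun x hx h => hx (hj (by rw [h, map_zero]))
    have hab : a * b ≠ 0 := mul_ne_zero ha hb
    obtain ⟨s, r, hs, h1⟩ := hfrac a
    obtain ⟨s', r', hs', h2⟩ := hfrac b
    have hr : r ≠ 0 := by
      rintro rfl
      rw [map_zero] at h1
      exact (mul_ne_zero (hjne s hs) ha) h1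
    have hr' : r' ≠ 0 := by
      rintro rfl
      rw [map_zero] at h2
      exact (mul_ne_zero (hjne s' hs') hb) h2
    obtain ⟨r'', s'', hs'', h3⟩ := hLO r s' hs'
    have hr'' : r'' ≠ 0 := by
      rintro rfl
      rw [zero_mul] at h3
      exact (mul_ne_zero hs'' hr) h3
    have h4 : j (s'' * s) * (a * b) = j (r'' * r') := by
      rw [_root_.map_mul, _root_.map_mul, ← h2, mul_assoc, ← mul_assoc (j s) a b, h1, ← mul_assoc, ← _root_.map_mul, h3,
        _root_.map_mul, mul_assoc]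
    rw [vfrac_eq hLO j hj hfrac w hmul hab (mul_ne_zero hs'' hs) h4,
      vfrac_eq hLO j hj hfrac w hmul ha hs h1, vfrac_eq hLO j hj hfrac w hmul hb hs' h2,
      hmul _ _ hs'' hs, hmul _ _ hr'' hr']
    have h5 := hmul _ _ hs'' hr
    have h6 := hmul _ _ hr'' hs'
    rw [h3] at h5
    omega
  map_add := by
    intro a b ha hb hab
    have hjne : ∀ x : R, x ≠ 0 → j x ≠ 0 := fun x hx h => hx (hj (by rw [h, map_zero]))
    obtain ⟨s, r, hs, h1⟩ := hfrac a
    obtain ⟨s', r', hs', h2⟩ := hfrac b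
    obtain ⟨u', u, hu, h3⟩ := hLO s s' hs'
    have hm : u * s ≠ 0 := mul_ne_zero hu hs
    have h4 : j (u * s) * a = j (u * r) := by rw [_root_.map_mul, mul_assoc, h1, _root_.map_mul]
    have h5 : j (u * s) * b = j (u' * r') := by rw [h3, _root_.map_mul, mul_assoc, h2, _root_.map_mul]
    have h6 : j (u * s) * (a + b) = j (u * r + u' * r') := by rw [mul_add, h4, h5, _root_.map_add]
    have n1 : u * r ≠ 0 := by
      intro h
      rw [h, map_zero] at h4
      exact (mul_ne_zero (hjne _ hm) ha) h4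
    have n2 : u' * r' ≠ 0 := by
      intro h
      rw [h, map_zero] at h5
      exact (mul_ne_zero (hjne _ hm) hb) h5
    have n3 : u * r + u' * r' ≠ 0 := by
      intro h
      rw [h, map_zero] at h6
      exact (mul_ne_zero (hjne _ hm) hab) h6
    rw [vfrac_eq hLO j hj hfrac w hmul ha hm h4, vfrac_eq hLO j hj hfrac w hmul hb hm h5,
      vfrac_eq hLO j hj hfrac w hmul hab hm h6]
    have := hadd _ _ n1 n2 n3
    omega
  t := (j s₀)⁻¹ * j r₀
  t_ne := mul_ne_zero (inv_ne_zero (fun h => hs₀ (hj (by rw [h, map_zero]))))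
    (fun h => hr₀ (hj (by rw [h, map_zero])))
  v_t := by
    have hjs : j s₀ ≠ 0 := fun h => hs₀ (hj (by rw [h, map_zero]))
    have ht' : (j s₀)⁻¹ * j r₀ ≠ 0 := mul_ne_zero (inv_ne_zero hjs)
      (fun h => hr₀ (hj (by rw [h, map_zero])))
    rw [vfrac_eq hLO j hj hfrac w hmul ht' hs₀ (r := r₀)
      (by rw [← mul_assoc, mul_inv_cancel₀ hjs, one_mul])]
    omega

theorem DV.mem_ofOre' [Nontrivial R] (s₀ r₀ : R) (hs₀ : s₀ ≠ 0) (hr₀ : r₀ ≠ 0)
    (hwt : w r₀ = w s₀ + 1) (m : ℤ) (x : R) :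
    j x ∈ (DV.ofOre' hLO j hj hfrac w hmul hadd s₀ r₀ hs₀ hr₀ hwt).O m ↔ x = 0 ∨ m ≤ w x := by
  have h1 : (1 : R) ≠ 0 := one_ne_zero
  rw [DV.mem_O]
  by_cases hx : x = 0
  · simp [hx]
  · have hx' : j x ≠ 0 := fun h => hx (hj (by rw [h, map_zero]))
    have h2 : (DV.ofOre' hLO j hj hfrac w hmul hadd s₀ r₀ hs₀ hr₀ hwt).v (j x) = w x := by
      change vfrac j hfrac w (j x) = w x
      rw [vfrac_eq hLO j hj hfrac w hmul hx' h1 (r := x) (by rw [map_one, one_mul])]
      have h2 := hmul 1 1 h1 h1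
      rw [mul_one] at h2
      omega
    rw [h2]
    simp [hx, hx']

end Frac

theorem IsDegree.pow {k : Type u} {R : Type v} [Field k] [Ring R] [Algebra k R] [Nontrivial R]
    {deg : R → ℕ} (h : IsDegree k deg) {a : R} (ha : a ≠ 0) (n : ℕ) :
    a ^ n ≠ 0 ∧ deg (a ^ n) = n * deg a := by
  induction n with
  | zero => exact ⟨by rw [pow_zero]; exact one_ne_zero, by rw [pow_zero, h.one, zero_mul]⟩
  | succ n ih =>
    have h1 := h.mul _ _ ih.1 ha
    rw [pow_succ]
    refine ⟨h1.1, ?_⟩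
    rw [h1.2, ih.2]
    ring

/-- The place at infinity of a degree function. -/
theorem IsDegree.exists_dv {k : Type u} {R : Type v} [Field k] [Ring R] [Algebra k R]
    [Nontrivial R] {deg : R → ℕ} (h : IsDegree k deg) :
    (∀ a : R, a ≠ 0 → deg a = 0) ∨
    ∃ (E : Type v) (_ : DivisionRing E) (V : DV E) (j : R →+* E), ∃ g : ℕ,
      ∀ (m : ℕ) (x : R), j x ∈ V.O (-(m:ℤ)) → x = 0 ∨ deg x ≤ m * g := by
  classical
  have := h.noZeroDivisors
  by_cases hd : ∀ a : R, a ≠ 0 → deg a = 0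
  · exact Or.inl hd
  right
  push Not at hd
  obtain ⟨a₁, ha₁, hda₁⟩ := hd
  have hex : ∃ g : ℕ, 0 < g ∧ ∃ s r : R, s ≠ 0 ∧ r ≠ 0 ∧ deg s = deg r + g :=
    ⟨deg a₁, Nat.pos_of_ne_zero hda₁, a₁, 1, ha₁, one_ne_zero, by rw [h.one, zero_add]⟩
  set g := Nat.find hex with hg
  obtain ⟨hg0, s, r, hs, hr, hsr⟩ := Nat.find_spec hex
  rw [← hg] at hg0 hsr
  have hmin : ∀ m, m < g → ¬ (0 < m ∧ ∃ s r : R, s ≠ 0 ∧ r ≠ 0 ∧ deg s = deg r + m) :=
    fun m hm => Nat.find_min hex (by rw [← hg]; exact hm)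
  have hdvd : ∀ a : R, a ≠ 0 → g ∣ deg a := by
    intro a ha
    by_contra hnd
    have hmod : 0 < deg a % g := Nat.pos_of_ne_zero fun h0 => hnd (Nat.dvd_of_mod_eq_zero h0)
    refine hmin (deg a % g) (Nat.mod_lt _ hg0) ⟨hmod, a * r ^ (deg a / g), s ^ (deg a / g), ?_, ?_, ?_⟩
    · exact (h.mul _ _ ha (h.pow hr _).1).1
    · exact (h.pow hs _).1
    · rw [(h.mul _ _ ha (h.pow hr _).1).2, (h.pow hr _).2, (h.pow hs _).2, hsr]
      have := Nat.div_add_mod (deg a) g
      have h2 : deg a / g * (deg r + g) = deg a / g * deg r + g * (deg a / g) := by ring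
      omega
  let w : R → ℤ := fun a => -((deg a / g : ℕ) : ℤ)
  have hw : ∀ a : R, a ≠ 0 → w a * g = -(deg a : ℤ) := by
    intro a ha
    obtain ⟨q, hq⟩ := hdvd a ha
    simp only [w, hq]
    rw [Nat.mul_div_cancel_left _ hg0]
    push_cast
    ring
  have hgz : (0 : ℤ) < g := by exact_mod_cast hg0
  have hmul : ∀ a b, a ≠ 0 → b ≠ 0 → w (a * b) = w a + w b := by
    intro a b ha hb
    have h1 := hw a ha
    have h2 := hw b hb
    have h3 := hw (a * b) (h.mul a b ha hb).1
    rw [(h.mul a b ha hb).2] at h3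
    push_cast at h3
    have h4 : (w (a * b) - (w a + w b)) * g = 0 := by linarith
    rcases mul_eq_zero.mp h4 with h5 | h5
    · linarith
    · omega
  have hadd : ∀ a b, a ≠ 0 → b ≠ 0 → a + b ≠ 0 → min (w a) (w b) ≤ w (a + b) := by
    intro a b ha hb hab
    have h1 := hw a ha
    have h2 := hw b hb
    have h3 := hw (a + b) hab
    have h4 := h.add a b ha hb hab
    rcases le_max_iff.mp h4 with h5 | h5
    · refine (min_le_left _ _).trans ?_
      have h6 : (deg (a + b) : ℤ) ≤ deg a := by exact_mod_cast h5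
      by_contra h7
      push Not at h7
      nlinarith
    · refine (min_le_right _ _).trans ?_
      have h6 : (deg (a + b) : ℤ) ≤ deg b := by exact_mod_cast h5
      by_contra h7
      push Not at h7
      nlinarith
  have hOre : Nonempty (OreLocalization.OreSet (nonZeroDivisors R)) := by
    rw [OreLocalization.nonempty_oreSet_iff_of_noZeroDivisors]
    intro r s
    obtain ⟨r', s', hs', h1⟩ := h.lo r s (nonZeroDivisors.ne_zero s.2)
    exact ⟨r', ⟨s', mem_nonZeroDivisors_of_ne_zero hs'⟩, h1⟩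
  obtain ⟨inst⟩ := hOre
  let E := OreLocalization (nonZeroDivisors R) R
  let j : R →+* E := OreLocalization.numeratorRingHom
  have hj : Function.Injective j := OreLocalization.numeratorHom_inj (by
    intro x hx
    exact (mem_nonZeroDivisors_iff.mp hx).1)
  have hfrac : ∀ a : E, ∃ s r, s ≠ 0 ∧ j s * a = j r := by
    intro a
    induction a using OreLocalization.ind with
    | _ r s =>
      refine ⟨s, r, nonZeroDivisors.ne_zero s.2, ?_⟩
      change ((s : R) /ₒ 1) * (r /ₒ s) = r /ₒ 1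
      exact OreLocalization.mul_cancel
  have hwt : w r = w s + 1 := by
    have h1 := hw r hr
    have h2 := hw s hs
    rw [hsr] at h2
    push_cast at h2
    have h4 : (w r - (w s + 1)) * g = 0 := by linarith
    rcases mul_eq_zero.mp h4 with h5 | h5
    · linarith
    · omega
  let V : DV E := DV.ofOre' h.lo j hj hfrac w hmul hadd s r hs hr hwt
  refine ⟨E, inferInstance, V, j, g, ?_⟩
  intro m x hx
  rw [DV.mem_ofOre'] at hx
  by_cases hx0 : x = 0
  · exact Or.inl hx0
  · right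
    have h1 := hx.resolve_left hx0
    have h2 := hw x hx0
    have h3 : (deg x : ℤ) ≤ m * g := by nlinarith
    exact_mod_cast h3

end Pool.Agent.N506.EX
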