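import Pool.Agent.N506.FR.DV
import Pool.Agent.N506.FR.TW
import Pool.Agent.N506.EYL

/-!
# Algebras with a degree function: every finite subset lies in a good subring
-/

namespace Pool.Agent.N506.EX

universe u v

section Sub

variable {k R : Type u} [Field k] [Ring R] [Algebra k R] {ι : Type u} (b : Module.Basis ι k R)
  (T : Subring k) (h1 : ∀ l, b.repr 1 l ∈ T) (h2 : ∀ i j l, b.repr (b i * b j) l ∈ T)

include h2 in
theorem repr_mul_mem {x y : R} (hx : ∀ l, b.repr x l ∈ T) (hy : ∀ l, b.repr y l ∈ T) (l : ι) :
    b.repr (x * y) l ∈ T := by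
  classical
  have hxe : x = ∑ i ∈ (b.repr x).support, (b.repr x i) • b i := by
    conv_lhs => rw [← b.linearCombination_repr x]
    rfl
  have hye : y = ∑ i ∈ (b.repr y).support, (b.repr y i) • b i := by
    conv_lhs => rw [← b.linearCombination_repr y]
    rfl
  have h3 : x * y = ∑ i ∈ (b.repr x).support, ∑ j ∈ (b.repr y).support,
      (b.repr x i * b.repr y j) • (b i * b j) := by
    conv_lhs => rw [hxe, hye]
    rw [Finset.sum_mul_sum]
    refine Finset.sum_congr rfl fun i _ => Finset.sum_congr rfl fun j _ => ?_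
    rw [smul_mul_smul_comm]
  rw [h3]
  simp only [map_sum, map_smul, Finsupp.coe_finsetSum, Finset.sum_apply, Finsupp.smul_apply,
    smul_eq_mul]
  exact T.sum_mem fun i _ => T.sum_mem fun j _ => T.mul_mem (T.mul_mem (hx i) (hy j)) (h2 i j l)

/-- The elements with coordinates in the subring `T`. -/
def coordSubring : Subring R where
  carrier := {x | ∀ l, b.repr x l ∈ T}
  mul_mem' := fun {x y} hx hy => repr_mul_mem b T h2 hx hy
  one_mem' := h1
  add_mem' := by
    intro x y hx hy l
    rw [map_add, Finsupp.add_apply]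
    exact T.add_mem (hx l) (hy l)
  zero_mem' := by
    intro l
    rw [map_zero, Finsupp.zero_apply]
    exact T.zero_mem
  neg_mem' := by
    intro x hx l
    rw [map_neg, Finsupp.neg_apply]
    exact T.neg_mem (hx l)

theorem mem_coordSubring {x : R} : x ∈ coordSubring b T h1 h2 ↔ ∀ l, b.repr x l ∈ T := Iff.rfl

/-- The coordinates. -/
noncomputable def coordExt : FreeExt T (coordSubring b T h1 h2) ι where
  inc := ((algebraMap k R).comp T.subtype).codRestrict (coordSubring b T h1 h2) (by
    intro t l
    change b.repr (algebraMap k R (t : k)) l ∈ T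
    rw [Algebra.algebraMap_eq_smul_one, map_smul, Finsupp.smul_apply, smul_eq_mul]
    exact T.mul_mem t.2 (h1 l))
  e q := ⟨b q, by
    classical
    intro l
    rw [b.repr_self, Finsupp.single_apply]
    split_ifs
    · exact T.one_mem
    · exact T.zero_mem⟩
  cf q :=
    { toFun := fun x => ⟨b.repr (x : R) q, x.2 q⟩
      map_zero' := by
        apply Subtype.ext
        change b.repr (0 : R) q = 0
        rw [map_zero, Finsupp.zero_apply]
      map_add' := by
        intro x y
        apply Subtype.ext
        change b.repr ((x : R) + y) q = b.repr (x : R) q + b.repr (y : R) q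
        rw [map_add, Finsupp.add_apply] }
  cf_mul := by
    intro q x y
    apply Subtype.ext
    change b.repr ((x : R) * algebraMap k R (y : k)) q = b.repr (x : R) q * (y : k)
    rw [← Algebra.commutes, ← Algebra.smul_def, map_smul, Finsupp.smul_apply, smul_eq_mul, mul_comm]
  fin := by
    intro x
    refine (b.repr (x : R)).support.finite_toSet.subset ?_
    intro q hq
    rw [Finset.mem_coe, Finsupp.mem_support_iff]
    intro h
    exact hq (Subtype.ext h)
  dec := by
    intro x U hU
    apply Subtype.ext
    have hsub : (b.repr (x : R)).support ⊆ U := by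
      intro q hq
      rw [Finsupp.mem_support_iff] at hq
      exact hU q (fun h => hq (congrArg Subtype.val h))
    rw [AddSubmonoidClass.coe_finsetSum]
    change ∑ q ∈ U, b q * algebraMap k R (b.repr (x : R) q) = (x : R)
    conv_rhs => rw [← b.linearCombination_repr (x : R)]
    rw [Finsupp.linearCombination_apply, Finsupp.sum_of_support_subset _ hsub _ (by simp)]
    refine Finset.sum_congr rfl fun q _ => ?_
    rw [← Algebra.commutes, ← Algebra.smul_def]
  same := by
    intro q
    apply Subtype.ext
    change b.repr (b q) q = 1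
    rw [b.repr_self, Finsupp.single_eq_same]
  ne := by
    intro p q hpq
    apply Subtype.ext
    change b.repr (b q) p = 0
    rw [b.repr_self, Finsupp.single_eq_of_ne hpq]

end Sub

/-- The supports of the elements of a finite-dimensional subspace. -/
theorem exists_supports {k R : Type u} [Field k] [Ring R] [Algebra k R] {ι : Type u}
    (b : Module.Basis ι k R) (V : Submodule k R) [Module.Finite k V] :
    ∃ U : Finset ι, ∀ x ∈ V, ∀ q, b.repr x q ≠ 0 → q ∈ U := by
  classical
  obtain ⟨S, hS⟩ := (Module.Finite.iff_fg.mp (inferInstance : Module.Finite k V))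
  refine ⟨S.biUnion fun x => (b.repr x).support, ?_⟩
  intro x hx q hq
  rw [← hS] at hx
  by_contra hn
  apply hq
  refine Submodule.span_induction (p := fun x _ => b.repr x q = 0) ?_ ?_ ?_ ?_ hx
  · intro y hy
    by_contra h
    exact hn (Finset.mem_biUnion.mpr ⟨y, hy, Finsupp.mem_support_iff.mpr h⟩)
  · rw [map_zero, Finsupp.zero_apply]
  · intro y z _ _ hy hz
    rw [map_add, Finsupp.add_apply, hy, hz, add_zero]
  · intro c y _ hy
    rw [map_smul, Finsupp.smul_apply, hy, smul_zero]

theorem IsDegree.fgood {k R : Type u} [Field k] [Ring R] [Algebra k R] [Nontrivial R]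
    {deg : R → ℕ} (h : IsDegree k deg) (hc : FGConstants k R) : FGood R := by
  classical
  obtain ⟨ι, b, C, hC1, hC2⟩ := hc
  intro s
  obtain ⟨T, d, hT, hd⟩ := FGood.field k (C ∪ s.biUnion fun x => (b.repr x).support.image (b.repr x))
  have hCT : Subring.closure (C : Set k) ≤ T := by
    rw [Subring.closure_le]
    intro x hx
    exact hT (Finset.mem_coe.mpr (Finset.mem_union_left _ hx))
  have h1 : ∀ l, b.repr 1 l ∈ T := fun l => hCT (hC1 l)
  have h2 : ∀ i j l, b.repr (b i * b j) l ∈ T := fun i j l => hCT (hC2 i j l)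
  refine ⟨coordSubring b T h1 h2, d + 3, ?_, ?_⟩
  · intro x hx l
    by_cases hl : b.repr x l = 0
    · rw [hl]
      exact T.zero_mem
    · exact hT (Finset.mem_coe.mpr (Finset.mem_union_right _ (Finset.mem_biUnion.mpr
        ⟨x, hx, Finset.mem_image.mpr ⟨l, Finsupp.mem_support_iff.mpr hl, rfl⟩⟩)))
  · -- the bounding family
    obtain ⟨O, hO, hdeg⟩ : ∃ O : ℕ → Set (coordSubring b T h1 h2),
        Bdd (coordSubring b T h1 h2) O ∧ ∀ m, ∃ r, ∀ x ∈ O m, (x : R) = 0 ∨ deg (x : R) ≤ r := by
      rcases h.exists_dv with h0 | ⟨E, _, V, j, g, hg⟩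
      · refine ⟨fun _ => Set.univ, Bdd.univ, fun m => ⟨0, fun x _ => ?_⟩⟩
        by_cases hx : (x : R) = 0
        · exact Or.inl hx
        · exact Or.inr (h0 _ hx).le
      · refine ⟨_, Bdd.dv V (j.comp (coordSubring b T h1 h2).subtype), fun m => ⟨m * g, ?_⟩⟩
        intro x hx
        exact hg m x hx
    refine Good.free (coordExt b T h1 h2) O hO ?_ hd
    intro m τ
    obtain ⟨r, hr⟩ := hdeg m
    have := h.fin (r + deg (b τ))
    obtain ⟨U, hU⟩ := exists_supports b (degSpan k deg (r + deg (b τ)))
    refine ⟨U, fun x hx q hq => hU ((x : R) * b τ) ?_ q (fun h => hq (Subtype.ext h))⟩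
    rw [h.mem]
    rcases hr x hx with h0 | hle
    · exact Or.inl (by rw [h0, zero_mul])
    · by_cases hx0 : (x : R) = 0
      · exact Or.inl (by rw [hx0, zero_mul])
      · refine Or.inr ?_
        have hb : b τ ≠ 0 := b.ne_zero τ
        rw [(h.mul _ _ hx0 hb).2]
        exact Nat.add_le_add_right hle _

/-- Matrix groups over algebras with a degree function are exact. -/
theorem IsDegree.mex {k R : Type u} [Field k] [Ring R] [Algebra k R]
    {deg : R → ℕ} (h : IsDegree k deg) (hc : FGConstants k R) : MEx R := by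
  rcases subsingleton_or_nontrivial R with hs | hn
  · exact MEx.of_finite
  · refine MEx.of_local fun s => ?_
    obtain ⟨S, d, hS, hd⟩ := h.fgood hc s
    exact ⟨S, hS, hd.mex⟩

end Pool.Agent.N506.EX
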