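import Pool.Agent.N506.FF
import Pool.Agent.N506.FR.TW

/-!
# The tower step for free extensions, for finite decomposition complexity
-/

namespace Pool.Agent.N506.FX

open Pool.Agent.N506.EX

universe u v w

/-- The tower step. -/
theorem GoodF.free {S R : Type u} [Ring S] [Ring R] {Q : Type u} (E : FreeExt S R Q)
    (O : ℕ → Set R) (hB : BddF R O)
    (hO : ∀ m τ, ∃ U : Finset Q, ∀ x ∈ O m, ∀ q, E.cf q (x * E.e τ) ≠ 0 → q ∈ U) {d : ℕ}
    (hN : GoodF S d) : GoodF R (d + 3) := by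
  classical
  intro X K B c W M hM I adj hAdj hF
  have hM3 : Sys R (3 + d) c W M := hM.le (by omega)
  have hF3 : ∀ i, FT (3 + d) W M (adj i) := fun i => (hF i).le (by omega)
  have hS := hB X K B c (fun ℓ => W (ℓ + d)) M (hM3.shift d) I adj hAdj
    (fun i => (hF3 i).shift d)
  refine FD.fib_c c hS ?_
  intro m Z π K' κ hκ
  choose T hT using hO m
  -- the windows
  let U0 : Finset Q := (E.fin 1).toFinset
  obtain ⟨T', hT'0, hT's⟩ : ∃ T' : ℕ → Finset Q, T' 0 = U0 ∧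
      ∀ ℓ, T' (ℓ + 1) = T' ℓ ∪ (T' ℓ).biUnion T :=
    ⟨fun ℓ => Nat.rec U0 (fun _ U => U ∪ U.biUnion T) ℓ, rfl, fun _ => rfl⟩
  have hT'm : ∀ ℓ, T' ℓ ⊆ T' (ℓ + 1) := fun ℓ => by
    rw [hT's]
    exact Finset.subset_union_left
  have hT'mm : ∀ m n, m ≤ n → T' m ⊆ T' n := by
    intro m n hmn
    induction n, hmn using Nat.le_induction with
    | base => exact subset_rfl
    | succ n _ ih => exact ih.trans (hT'm n)
  have hT't : ∀ ℓ, ∀ τ ∈ T' ℓ, ∀ x ∈ O m, ∀ q, E.cf q (x * E.e τ) ≠ 0 → q ∈ T' (ℓ + 1) := by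
    intro ℓ τ hτ x hx q hq
    rw [hT's]
    exact Finset.mem_union_right _ (Finset.mem_biUnion.mpr ⟨τ, hτ, hT τ x hx q hq⟩)
  have hκc : ∀ z z', κ z = κ z' → c (π z) = c (π z') := fun z z' h => (hκ z z' h).2
  have hκO : ∀ z z', κ z = κ z' → ∀ ℓ, ℓ ≤ d → ∀ β ∈ W ℓ, ∀ γ, M (π z) (π z') γ β ∈ O m := by
    intro z z' h ℓ hℓ β hβ γ
    exact (hκ z z' h).1 β (hM.mono_le (by omega) hβ) γ
  let A' : Z → Z → B × Q → B × Q → S :=
    fun z z' p q => E.cf p.2 (M (π z) (π z') p.1 q.1 * E.e q.2)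
  let W' : ℕ → Finset (B × Q) := fun ℓ => W ℓ ×ˢ T' ℓ
  have hW' : ∀ ℓ p, p ∈ W' ℓ ↔ p.1 ∈ W ℓ ∧ p.2 ∈ T' ℓ := fun ℓ p => Finset.mem_product
  -- decomposition
  have hdec : ∀ z z', κ z = κ z' → ∀ ℓ, ℓ ≤ d → ∀ β ∈ W ℓ, ∀ τ ∈ T' ℓ, ∀ γ,
      ∑ σ ∈ T' (ℓ + 1), E.e σ * E.inc (A' z z' (γ, σ) (β, τ)) = M (π z) (π z') γ β * E.e τ := by
    intro z z' h ℓ hℓ β hβ τ hτ γ
    exact E.dec _ _ (hT't ℓ τ hτ _ (hκO z z' h ℓ hℓ β hβ γ))
  have hA' : Sys S d κ W' A' :=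
    { mono := by
        intro ℓ p hp
        rw [hW'] at hp ⊢
        exact ⟨hM.mono ℓ hp.1, hT'm ℓ hp.2⟩
      supp := by
        intro ℓ hℓ z z' h q hq p hp
        rw [hW'] at hq hp
        simp only [A']
        by_cases h1 : p.1 ∈ W (ℓ + 1)
        · by_contra h2
          exact hp ⟨h1, hT't ℓ q.2 hq.2 _ (hκO z z' h ℓ hℓ.le q.1 hq.1 p.1) _ h2⟩
        · rw [hM.supp ℓ (by omega) _ _ (hκc z z' h) q.1 hq.1 p.1 h1, zero_mul, map_zero]
      refl := by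
        intro ℓ hℓ z q hq
        rw [hW'] at hq
        obtain ⟨h1, h2⟩ := hM.refl ℓ (by omega) (π z) q.1 hq.1
        refine ⟨by simp only [A']; rw [h1, one_mul]; exact E.same q.2, fun p hp => ?_⟩
        simp only [A']
        by_cases h : p.1 = q.1
        · rw [h, h1, one_mul]
          exact E.ne _ _ fun h3 => hp (Prod.ext h h3)
        · rw [h2 p.1 h, zero_mul, map_zero]
      mul := by
        intro ℓ hℓ x y z h1 h2 q hq p
        rw [hW'] at hq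
        change E.cf p.2 (M (π x) (π z) p.1 q.1 * E.e q.2) = _
        rw [hM.mul ℓ (by omega) _ _ _ (hκc x y h1) (hκc y z h2) q.1 hq.1 p.1, Finset.sum_mul,
          map_sum, Finset.sum_product]
        refine Finset.sum_congr rfl fun γ _ => ?_
        rw [mul_assoc, ← hdec y z h2 ℓ (by omega) q.1 hq.1 q.2 hq.2 γ, Finset.mul_sum, map_sum]
        refine Finset.sum_congr rfl fun σ _ => ?_
        rw [← mul_assoc, E.cf_mul] }
  have hcfr : ∀ x : R, (Set.range fun σ : Q => E.cf σ x).Finite := by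
    intro x
    refine (((E.fin x).image fun σ => E.cf σ x).union (Set.finite_singleton 0)).subset ?_
    rintro _ ⟨σ, rfl⟩
    by_cases h : E.cf σ x = 0
    · exact Or.inr h
    · exact Or.inl ⟨σ, h, rfl⟩
  have hF' : ∀ i, FT d W' A' (fun z z' => adj i (π z) (π z') ∧ κ z = κ z') := by
    intro i₀
    refine Set.Finite.subset ((hF i₀).biUnion (t := fun r => ⋃ τ ∈ (T' d : Set Q),
      Set.range fun σ : Q => E.cf σ (r * E.e τ))
      (fun r _ => (T' d).finite_toSet.biUnion fun τ _ => hcfr _)) ?_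
    rintro r ⟨ℓ, hℓ, x, y, hxy, q, hq, p, h⟩
    rw [hW'] at hq
    simp only [Set.mem_iUnion]
    rcases h with h | h
    · exact ⟨_, ⟨ℓ, by omega, _, _, hxy.1, q.1, hq.1, p.1, Or.inl rfl⟩, q.2,
        hT'mm ℓ d hℓ.le hq.2, p.2, h.symm⟩
    · exact ⟨_, ⟨ℓ, by omega, _, _, hxy.1, q.1, hq.1, p.1, Or.inr rfl⟩, q.2,
        hT'mm ℓ d hℓ.le hq.2, p.2, h.symm⟩
  have key := hN Z K' _ κ W' A' hA' I (fun i z z' => adj i (π z) (π z') ∧ κ z = κ z')
    (fun _ _ _ h => h.2) hF'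
  let F : (U0 → T' 1 → S) → R := fun b =>
    ∑ τ : U0, (∑ σ : T' 1, E.e σ * E.inc (b τ σ)) * E.inc (E.cf τ 1)
  refine key.mono (fun z z' => κ z = κ z') (fun i => ⟨i, fun x y h1 h2 => ⟨h2, h1⟩⟩)
    (fun C' => ?_) (fun Z hZ => ⟨hZ, Z, hZ, subset_rfl⟩)
  have hfin : (F '' {b | ∀ τ σ, b τ σ ∈ C'}).Finite :=
    (Set.Finite.pi' fun _ => Set.Finite.pi' (t := fun _ => (C' : Set S))
      fun _ => C'.finite_toSet).image F
  refine ⟨hfin.toFinset, ?_⟩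
  intro z z' hzz h β hβ γ
  rw [Set.Finite.mem_toFinset]
  refine ⟨fun τ σ => A' z z' (γ, (σ : Q)) (β, (τ : Q)), fun τ σ => h (β, (τ : Q))
    (by rw [hW', hT'0]; exact ⟨hβ, τ.2⟩) (γ, (σ : Q)), ?_⟩
  have h3 : ∀ τ : U0, (∑ σ : T' 1, E.e σ * E.inc (A' z z' (γ, (σ : Q)) (β, (τ : Q)))) =
      M (π z) (π z') γ β * E.e τ := by
    intro τ
    rw [← hdec z z' hzz 0 (by omega) β hβ (τ : Q) (by rw [hT'0]; exact τ.2) γ]
    exact Finset.sum_coe_sort (T' 1) (fun σ => E.e σ * E.inc (A' z z' (γ, σ) (β, (τ : Q))))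
  simp only [F]
  rw [Finset.sum_congr rfl fun τ _ => by rw [h3 τ]]
  have h4 := E.dec 1 U0 (fun q hq => (E.fin 1).mem_toFinset.mpr hq)
  calc ∑ τ : U0, M (π z) (π z') γ β * E.e τ * E.inc (E.cf τ 1)
      = M (π z) (π z') γ β * ∑ τ ∈ U0, E.e τ * E.inc (E.cf τ 1) := by
        rw [Finset.mul_sum, ← Finset.sum_coe_sort U0]
        refine Finset.sum_congr rfl fun τ _ => ?_
        rw [mul_assoc]
    _ = M (π z) (π z') γ β := by rw [h4, mul_one]

end Pool.Agent.N506.FX
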