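import Pool.Agent.N506.FR.GD
import Pool.Agent.N506.FR.TWF
import Pool.Agent.N506.FI
import Pool.Agent.N506.FM

/-!
# Algebras with a degree function, finite decomposition complexity
-/

namespace Pool.Agent.N506.FX

open Pool.Agent.N506.EX

universe u v

theorem _root_.Pool.Agent.N506.EX.IsDegree.fgoodF {k R : Type u} [Field k] [Ring R] [Algebra k R]
    [Nontrivial R] {deg : R → ℕ} (h : IsDegree k deg) (hc : FGConstants k R) : FGoodF R := by
  classical
  obtain ⟨ι, b, C, hC1, hC2⟩ := hc
  intro s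
  obtain ⟨T, d, hT, hd⟩ := FGoodF.field k (C ∪ s.biUnion fun x => (b.repr x).support.image (b.repr x))
  have hCT : Subring.closure (C : Set k) ≤ T := by
    rw [Subring.closure_le]
    intro x hx
    exact hT (Finset.mem_coe.mpr (Finset.mem_union_left _ hx))
  have h1 : ∀ l, b.repr 1 l ∈ T := fun l => hCT (hC1 l)
  have h2 : ∀ i j l, b.repr (b i * b j) l ∈ T := fun i j l => hCT (hC2 i j l)
  refine ⟨coordSubring b T h1 h2, d + 3, ?_, ?_⟩
  · intro x hx l
    by_cases hl : b.repr x l = 0
    · rw [hl]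
      exact T.zero_mem
    · exact hT (Finset.mem_coe.mpr (Finset.mem_union_right _ (Finset.mem_biUnion.mpr
        ⟨x, hx, Finset.mem_image.mpr ⟨l, Finsupp.mem_support_iff.mpr hl, rfl⟩⟩)))
  · -- the bounding family
    obtain ⟨O, hO, hdeg⟩ : ∃ O : ℕ → Set (coordSubring b T h1 h2),
        BddF (coordSubring b T h1 h2) O ∧ ∀ m, ∃ r, ∀ x ∈ O m, (x : R) = 0 ∨ deg (x : R) ≤ r := by
      rcases h.exists_dv with h0 | ⟨E, _, V, j, g, hg⟩
      · refine ⟨fun _ => Set.univ, BddF.univ, fun m => ⟨0, fun x _ => ?_⟩⟩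
        by_cases hx : (x : R) = 0
        · exact Or.inl hx
        · exact Or.inr (h0 _ hx).le
      · refine ⟨_, BddF.dv V (j.comp (coordSubring b T h1 h2).subtype), fun m => ⟨m * g, ?_⟩⟩
        intro x hx
        exact hg m x hx
    refine GoodF.free (coordExt b T h1 h2) O hO ?_ hd
    intro m τ
    obtain ⟨r, hr⟩ := hdeg m
    have := h.fin (r + deg (b τ))
    obtain ⟨U, hU⟩ := exists_supports b (degSpan k deg (r + deg (b τ)))
    refine ⟨U, fun x hx q hq => hU ((x : R) * b τ) ?_ q (fun h => hq (Subtype.ext h))⟩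
    rw [h.mem]
    rcases hr x hx with h0 | hle
    · exact Or.inl (by rw [h0, zero_mul])
    · by_cases hx0 : (x : R) = 0
      · exact Or.inl (by rw [hx0, zero_mul])
      · refine Or.inr ?_
        have hb : b τ ≠ 0 := b.ne_zero τ
        rw [(h.mul _ _ hx0 hb).2]
        exact Nat.add_le_add_right hle _

/-- Matrix groups over algebras with a degree function have finite decomposition complexity. -/
theorem _root_.Pool.Agent.N506.EX.IsDegree.mfd {k R : Type u} [Field k] [Ring R] [Algebra k R]
    {deg : R → ℕ} (h : IsDegree k deg) (hc : FGConstants k R) : MFd R := by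
  rcases subsingleton_or_nontrivial R with hs | hn
  · exact MFd.of_finite
  · refine MFd.of_local fun s => ?_
    obtain ⟨S, d, hS, hd⟩ := h.fgoodF hc s
    exact ⟨S, hS, hd.mfd⟩

end Pool.Agent.N506.FX
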