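import Pool.Agent.N506.FR.D0
import Pool.Agent.N506.EYI

/-!
# Algebras with a degree function are Ore domains
-/

namespace Pool.Agent.N506.EX

universe u v

open Filter

variable {k : Type u} {R : Type v} [Field k] [Ring R] [Algebra k R] {deg : R → ℕ}

theorem IsDegree.one (h : IsDegree k deg) [Nontrivial R] : deg (1 : R) = 0 := by
  have := (h.mul 1 1 one_ne_zero one_ne_zero).2
  rw [mul_one] at this
  omega

theorem IsDegree.smul (h : IsDegree k deg) [Nontrivial R] {c : k} (hc : c ≠ 0) {a : R} (ha : a ≠ 0) :
    deg (c • a) = deg a := by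
  have h1 : (algebraMap k R c) ≠ 0 := by
    rw [Ne, map_eq_zero]
    exact hc
  have h2 : (algebraMap k R c⁻¹) ≠ 0 := by
    rw [Ne, map_eq_zero]
    exact inv_ne_zero hc
  have h3 := (h.mul _ _ h1 h2).2
  rw [← map_mul, mul_inv_cancel₀ hc, map_one, h.one] at h3
  rw [Algebra.smul_def, (h.mul _ _ h1 ha).2]
  omega

theorem IsDegree.mem (h : IsDegree k deg) [Nontrivial R] {r : ℕ} {a : R} :
    a ∈ degSpan k deg r ↔ a = 0 ∨ deg a ≤ r := by
  constructor
  · intro ha
    refine Submodule.span_induction (p := fun a _ => a = 0 ∨ deg a ≤ r) ?_ ?_ ?_ ?_ ha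
    · intro x hx
      exact Or.inr hx
    · exact Or.inl rfl
    · intro x y _ _ hx hy
      by_cases hx0 : x = 0
      · rw [hx0, zero_add]
        exact hy
      by_cases hy0 : y = 0
      · rw [hy0, add_zero]
        exact hx
      by_cases hxy : x + y = 0
      · exact Or.inl hxy
      · exact Or.inr ((h.add x y hx0 hy0 hxy).trans
          (max_le (hx.resolve_left hx0) (hy.resolve_left hy0)))
    · intro c x _ hx
      by_cases hc : c = 0
      · exact Or.inl (by rw [hc, zero_smul])
      by_cases hx0 : x = 0
      · exact Or.inl (by rw [hx0, smul_zero])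
      · exact Or.inr (by rw [h.smul hc hx0]; exact hx.resolve_left hx0)
  · rintro (rfl | ha)
    · exact Submodule.zero_mem _
    · exact Submodule.subset_span ha

theorem IsDegree.noZeroDivisors (h : IsDegree k deg) : NoZeroDivisors R where
  eq_zero_or_eq_zero_of_mul_eq_zero := by
    intro a b hab
    by_contra hh
    push Not at hh
    exact (h.mul a b hh.1 hh.2).1 hab

/-- The Ore condition. -/
theorem IsDegree.lo (h : IsDegree k deg) [Nontrivial R] : LO R := by
  have := h.noZeroDivisors
  intro a b hb
  by_contra hcon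
  push Not at hcon
  have ha : a ≠ 0 := by
    rintro rfl
    exact hcon 0 1 one_ne_zero (by simp)
  set c := max (deg a) (deg b) + 1 with hc
  have key : ∀ r, 2 * Module.finrank k (degSpan k deg r) ≤
      Module.finrank k (degSpan k deg (r + c)) := by
    intro r
    have := h.fin r
    have := h.fin (r + c)
    let g : (degSpan k deg r × degSpan k deg r) →ₗ[k] R :=
      LinearMap.coprod ((LinearMap.mulRight k a).comp (degSpan k deg r).subtype)
        ((LinearMap.mulRight k b).comp (degSpan k deg r).subtype)
    have hg : ∀ p, g p = (p.1 : R) * a + (p.2 : R) * b := fun p => rfl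
    have hmem : ∀ x : R, x ∈ degSpan k deg r → ∀ z : R, z ≠ 0 → deg z ≤ c →
        x * z ∈ degSpan k deg (r + c) := by
      intro x hx z hz hzc
      rw [h.mem] at hx ⊢
      by_cases hx0 : x = 0
      · exact Or.inl (by rw [hx0, zero_mul])
      · refine Or.inr ?_
        rw [(h.mul x z hx0 hz).2]
        exact Nat.add_le_add (hx.resolve_left hx0) hzc
    let f : (degSpan k deg r × degSpan k deg r) →ₗ[k] degSpan k deg (r + c) :=
      LinearMap.codRestrict _ g (fun p => by
        rw [hg]
        exact Submodule.add_mem _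
          (hmem _ p.1.2 a ha ((le_max_left _ _).trans (Nat.le_succ _)))
          (hmem _ p.2.2 b hb ((le_max_right _ _).trans (Nat.le_succ _))))
    have hf : Function.Injective f := by
      rw [injective_iff_map_eq_zero]
      intro p hp
      have h1 : (p.1 : R) * a + (p.2 : R) * b = 0 := congrArg Subtype.val hp
      have h2 : (p.1 : R) = 0 := by
        by_contra h2
        refine hcon (-(p.2 : R)) (p.1 : R) h2 ?_
        rw [neg_mul]
        exact eq_neg_of_add_eq_zero_left h1
      rw [h2, zero_mul, zero_add] at h1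
      have h3 : (p.2 : R) = 0 := (mul_eq_zero.mp h1).resolve_right hb
      exact Prod.ext (Subtype.ext h2) (Subtype.ext h3)
    have h4 := LinearMap.finrank_le_finrank_of_injective hf
    rw [Module.finrank_prod] at h4
    omega
  have hpow : ∀ n : ℕ, 2 ^ n ≤ Module.finrank k (degSpan k deg (n * c)) := by
    intro n
    induction n with
    | zero =>
      have := h.fin (0 * c)
      have h1 : (1 : R) ∈ degSpan k deg (0 * c) := by
        rw [h.mem, h.one]
        exact Or.inr (Nat.zero_le _)
      have : Nontrivial (degSpan k deg (0 * c)) :=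
        ⟨⟨⟨1, h1⟩, 0, fun h2 => one_ne_zero (congrArg Subtype.val h2)⟩⟩
      exact Module.finrank_pos
    | succ n ih =>
      have h1 := key (n * c)
      rw [← Nat.succ_mul] at h1
      rw [pow_succ]
      have h2 : (n + 1) * c = n.succ * c := rfl
      rw [h2]
      omega
  have hc0 : (0 : ℝ) < c := by
    rw [hc]
    positivity
  have hlog : (0 : ℝ) < Real.log 2 := Real.log_pos (by norm_num)
  obtain ⟨N, hN⟩ := Filter.eventually_atTop.mp (h.growth (Real.log 2 / (2 * c)) (by positivity))
  have hle : N ≤ (N + 1) * c := by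
    have : 1 ≤ c := by omega
    nlinarith
  have h5 := hN ((N + 1) * c) hle
  have h6 : ((2 : ℝ)) ^ (N + 1) ≤ Module.finrank k (degSpan k deg ((N + 1) * c)) := by
    exact_mod_cast hpow (N + 1)
  have h7 : Real.log 2 / (2 * c) * (((N + 1) * c : ℕ) : ℝ) = (N + 1) * Real.log 2 / 2 := by
    push_cast
    field_simp
  rw [h7] at h5
  have h8 : ((2 : ℝ)) ^ (N + 1) = Real.exp ((N + 1) * Real.log 2) := by
    rw [← Real.rpow_natCast, Real.rpow_def_of_pos (by norm_num)]
    push_cast
    ring_nf
  rw [h8] at h6
  have h9 := h6.trans h5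
  rw [Real.exp_le_exp] at h9
  have h10 : (0:ℝ) < (N + 1) * Real.log 2 := by positivity
  linarith

end Pool.Agent.N506.EX
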